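import Pool.Agent.W495.FM.HomDefs

/-!
# The three parts of the conjecture of Tate and Beilinson
-/

set_option autoImplicit false

namespace Pool.Agent.X303.TBDual

open Pool.Agent.W495.FM

variable {Ω V : Type} [Field Ω]

/-- The regulator maps `H_i^M(X, ℚ(j)) ⊗ Ω` onto the space of the Frobenius invariant elements of
`H_i(X, ℚ_ℓ(j)) ⊗ Ω`: these are the linear combinations of the elements of the image. -/
def RegSurjective (T : Homology Ω V) (X : V) (i j : ℤ) : Prop :=
  ∀ e : T.E X i j, T.frob X i j e = e ↔ e ∈ Submodule.span Ω (Set.range (T.reg X i j))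

/-- The regulator is injective on `H_i^M(X, ℚ(j)) ⊗ Ω`: elements of `H_i^M(X, ℚ(j))` which are linearly
independent over `ℚ` have images which are linearly independent over `Ω`. -/
def RegInjective (T : Homology Ω V) (X : V) (i j : ℤ) : Prop :=
  ∀ (r : ℕ) (x : Fin r → T.M X i j), LinearIndependent ℚ x →
    LinearIndependent Ω fun k => T.reg X i j (x k)

/-- The eigenvalue one of the Frobenius on `H_i(X, ℚ_ℓ(j)) ⊗ Ω` is semisimple. -/
def FrobSemisimple (T : Homology Ω V) (X : V) (i j : ℤ) : Prop :=
  ∀ e : T.E X i j, T.frob X i j (T.frob X i j e - e) = T.frob X i j e - e → T.frob X i j e = e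

end Pool.Agent.X303.TBDual
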