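import Pool.Agent.X303.TBDefs

/-!
# Smooth projective schemes: duality and purity, and the conjecture of Tate and Beilinson

For a smooth projective scheme `X` of pure dimension `d` over a finite field, `H_a(X, ℚ(b))` is
`H^(2 d - a)(X, ℚ(d - b))`, for motivic and for `ℓ`-adic cohomology.
-/

set_option autoImplicit false

namespace Pool.Agent.X303.TBDual

open Pool.Agent.W495.FM Module

noncomputable section

variable {Ω V : Type} [Field Ω] [CharZero Ω]

/-- Data of cup products, followed by the degree: the pairings of `M X a b = H^(2 d - a)(X, ℚ(d - b))`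
with `M X (2 d - a) (d - b) = H^a(X, ℚ(b))`, and the ones in `ℓ`-adic cohomology. -/
structure CupDataL (T : Homology Ω V) (X : V) (d : ℤ) where
  /-- the pairing in motivic cohomology -/
  cup : ∀ a b : ℤ, T.M X a b →ₗ[ℚ] T.M X (2 * d - a) (d - b) →ₗ[ℚ] ℚ
  /-- the pairing in `ℓ`-adic cohomology over the algebraic closure -/
  cupE : ∀ a b : ℤ, T.E X a b →ₗ[Ω] T.E X (2 * d - a) (d - b) →ₗ[Ω] Ω

/-- The properties of the cup products on a smooth projective scheme `X` of pure dimension `d`:
Poincaré duality for `ℓ`-adic cohomology, invariance under the Frobenius, and the compatibility of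
the regulator with cup products and degrees. -/
structure IsCupL {T : Homology Ω V} {X : V} {d : ℤ} (D : CupDataL T X d) : Prop where
  left : ∀ a b e, (∀ e', D.cupE a b e e' = 0) → e = 0
  right : ∀ a b e', (∀ e, D.cupE a b e e' = 0) → e' = 0
  frob : ∀ a b e e', D.cupE a b (T.frob X a b e) (T.frob X _ _ e') = D.cupE a b e e'
  reg : ∀ a b x y, D.cupE a b (T.reg X a b x) (T.reg X _ _ y) = (D.cup a b x y : Ω)

variable {T : Homology Ω V} {X : V}

theorem reg_ne_zero (h : TB T X) {a b : ℤ} {x : T.M X a b} (hx : x ≠ 0) : T.reg X a b x ≠ 0 := by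
  have h1 := (h a b).2.1 1 (fun _ => x) (LinearIndependent.of_subsingleton (0 : Fin 1) hx)
  exact h1.ne_zero (0 : Fin 1)

/-- Parshin's conjecture follows from purity. -/
theorem parshin (hT : IsHomology T) (h : TB T X) (hX : IsPure T X) {a b : ℤ} (hab : a ≠ 2 * b)
    (x : T.M X a b) : x = 0 := by
  by_contra hx
  exact reg_ne_zero h hx (hX a b hab _ (hT.frob_reg X a b x))

/-- Parshin's conjecture for integral coefficients. -/
theorem parshin_int (hT : IsHomology T) (h : TB T X) (hX : IsPure T X) {d : ℤ} {H : ℤ → ℤ → Type}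
    [∀ i n, AddCommGroup (H i n)] (hH : IsIntegral T X d H) {i n : ℤ} (hin : i ≠ 2 * n)
    (x : H i n) : ∃ N : ℕ, 0 < N ∧ N • x = 0 := by
  obtain ⟨f, -, h0⟩ := hH i n
  exact h0 x (parshin hT h hX (by omega) (f x))

theorem finite_M (hT : IsHomology T) (h : TB T X) (a b : ℤ) : FiniteDimensional ℚ (T.M X a b) := by
  have hE := hT.finite X a b
  by_contra hcon
  obtain ⟨x, hx⟩ : ∃ x : Fin (finrank Ω (T.E X a b) + 1) → T.M X a b, LinearIndependent ℚ x := by
    have h1 : (Cardinal.aleph0 : Cardinal) ≤ Module.rank ℚ (T.M X a b) := by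
      rw [← not_lt]
      intro h2
      exact hcon (Module.rank_lt_aleph0_iff.1 h2)
    have h2 : ((finrank Ω (T.E X a b) + 1 : ℕ) : Cardinal) ≤ Module.rank ℚ (T.M X a b) :=
      (Cardinal.natCast_lt_aleph0.le).trans h1
    obtain ⟨s, hs, hs'⟩ := le_rank_iff_exists_linearIndependent_finset.1 h2
    refine ⟨fun i => ((s.equivFin.symm (Fin.cast hs.symm i) : s) : T.M X a b), ?_⟩
    exact hs'.comp _ ((s.equivFin.symm.injective).comp (Fin.cast_injective _))
  have h3 := ((h a b).2.1 _ x hx).fintype_card_le_finrank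
  rw [Fintype.card_fin] at h3
  omega

theorem cup_invariant {d : ℤ} (hT : IsHomology T) {D : CupDataL T X d} (hD : IsCupL D) {a b : ℤ}
    {e : T.E X a b} (he : T.frob X a b e = e)
    (hss : ∀ e : T.E X (2 * d - a) (d - b), T.frob X _ _ (T.frob X _ _ e - e) = T.frob X _ _ e - e →
      T.frob X _ _ e = e)
    (h0 : ∀ e' : T.E X (2 * d - a) (d - b), T.frob X _ _ e' = e' → D.cupE a b e e' = 0) : e = 0 := by
  have hE := hT.finite X (2 * d - a) (d - b)
  obtain ⟨φ, hφ⟩ := hT.lin X (2 * d - a) (d - b)
  apply hD.left a b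
  intro e'
  set N : T.E X (2 * d - a) (d - b) →ₗ[Ω] T.E X (2 * d - a) (d - b) := φ - LinearMap.id with hN
  have hdis : Disjoint (LinearMap.ker N) (LinearMap.range N) := by
    rw [Submodule.disjoint_def]
    rintro z hz ⟨w, rfl⟩
    have h1 : N w = φ w - w := rfl
    rw [h1] at hz ⊢
    have h2 : φ (φ w - w) = φ w - w := by
      have h3 : N (φ w - w) = 0 := hz
      have h4 : N (φ w - w) = φ (φ w - w) - (φ w - w) := rfl
      rw [h4] at h3
      exact sub_eq_zero.1 h3
    have h5 := hss w (by rw [hφ, hφ]; exact h2)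
    rw [hφ] at h5
    rw [h5, sub_self]
  have hsup : LinearMap.ker N ⊔ LinearMap.range N = ⊤ := by
    apply Submodule.eq_top_of_finrank_eq
    have h1 := Submodule.finrank_sup_add_finrank_inf_eq (LinearMap.ker N) (LinearMap.range N)
    rw [hdis.eq_bot, finrank_bot, add_zero] at h1
    have h2 := LinearMap.finrank_range_add_finrank_ker N
    omega
  have hmem : e' ∈ LinearMap.ker N ⊔ LinearMap.range N := by
    rw [hsup]
    trivial
  obtain ⟨y, hy, z, ⟨w, rfl⟩, rfl⟩ := Submodule.mem_sup.1 hmem
  rw [map_add]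
  have hy' : T.frob X _ _ y = y := by
    rw [hφ]
    have h4 : N y = φ y - y := rfl
    rw [LinearMap.mem_ker, h4] at hy
    exact sub_eq_zero.1 hy
  rw [h0 y hy', zero_add]
  have h4 : N w = φ w - w := rfl
  rw [h4, map_sub]
  have h5 := hD.frob a b e w
  rw [he, hφ] at h5
  rw [h5, sub_self]

/-- the pairing in the other order -/
theorem cup_invariant' {d : ℤ} (hT : IsHomology T) {D : CupDataL T X d} (hD : IsCupL D) {a b : ℤ}
    {e' : T.E X (2 * d - a) (d - b)} (he : T.frob X _ _ e' = e')
    (hss : ∀ e : T.E X a b, T.frob X _ _ (T.frob X _ _ e - e) = T.frob X _ _ e - e →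
      T.frob X _ _ e = e)
    (h0 : ∀ e : T.E X a b, T.frob X _ _ e = e → D.cupE a b e e' = 0) : e' = 0 := by
  have hE := hT.finite X a b
  obtain ⟨φ, hφ⟩ := hT.lin X a b
  apply hD.right a b
  intro e
  set N : T.E X a b →ₗ[Ω] T.E X a b := φ - LinearMap.id with hN
  have hdis : Disjoint (LinearMap.ker N) (LinearMap.range N) := by
    rw [Submodule.disjoint_def]
    rintro z hz ⟨w, rfl⟩
    have h1 : N w = φ w - w := rfl
    rw [h1] at hz ⊢
    have h2 : φ (φ w - w) = φ w - w := by
      have h3 : N (φ w - w) = 0 := hz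
      have h4 : N (φ w - w) = φ (φ w - w) - (φ w - w) := rfl
      rw [h4] at h3
      exact sub_eq_zero.1 h3
    have h5 := hss w (by rw [hφ, hφ]; exact h2)
    rw [hφ] at h5
    rw [h5, sub_self]
  have hsup : LinearMap.ker N ⊔ LinearMap.range N = ⊤ := by
    apply Submodule.eq_top_of_finrank_eq
    have h1 := Submodule.finrank_sup_add_finrank_inf_eq (LinearMap.ker N) (LinearMap.range N)
    rw [hdis.eq_bot, finrank_bot, add_zero] at h1
    have h2 := LinearMap.finrank_range_add_finrank_ker N
    omega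
  have hmem : e ∈ LinearMap.ker N ⊔ LinearMap.range N := by
    rw [hsup]
    trivial
  obtain ⟨y, hy, z, ⟨w, rfl⟩, rfl⟩ := Submodule.mem_sup.1 hmem
  rw [map_add, LinearMap.add_apply]
  have hy' : T.frob X _ _ y = y := by
    rw [hφ]
    have h4 : N y = φ y - y := rfl
    rw [LinearMap.mem_ker, h4] at hy
    exact sub_eq_zero.1 hy
  rw [h0 y hy', zero_add]
  have h4 : N w = φ w - w := rfl
  rw [h4, map_sub, LinearMap.sub_apply]
  have h5 := hD.frob a b w e'
  rw [he, hφ] at h5
  rw [h5, sub_self]

theorem perfectL {d : ℤ} (hT : IsHomology T) (h : TB T X) {D : CupDataL T X d} (hD : IsCupL D)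
    (a b : ℤ) : (D.cup a b).IsPerfPair := by
  have hfin := finite_M hT h a b
  refine LinearMap.IsPerfPair.of_injective ?_ ?_
  · rw [injective_iff_map_eq_zero]
    intro x hx
    by_contra hx0
    refine reg_ne_zero h hx0 (cup_invariant hT hD (hT.frob_reg X a b x) (h _ _).2.2 ?_)
    intro e' he'
    have h1 := ((h _ _).1 e').1 he'
    induction h1 using Submodule.span_induction with
    | mem z hz =>
      obtain ⟨y, rfl⟩ := hz
      rw [hD.reg, hx]
      simp
    | zero => rw [map_zero]
    | add y z hy hz h1 h2 =>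
      rw [map_add, h1 (((h _ _).1 y).2 hy), h2 (((h _ _).1 z).2 hz), add_zero]
    | smul c y hy h1 => rw [map_smul, h1 (((h _ _).1 y).2 hy), smul_zero]
  · rw [injective_iff_map_eq_zero]
    intro x hx
    by_contra hx0
    refine reg_ne_zero h hx0 (cup_invariant' hT hD (hT.frob_reg X _ _ x) (h _ _).2.2 ?_)
    intro e' he'
    have h1 := ((h _ _).1 e').1 he'
    induction h1 using Submodule.span_induction with
    | mem z hz =>
      obtain ⟨y, rfl⟩ := hz
      rw [hD.reg, ← LinearMap.flip_apply, hx]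
      simp
    | zero => rw [map_zero, LinearMap.zero_apply]
    | add y z hy hz h1 h2 =>
      rw [map_add, LinearMap.add_apply, h1 (((h _ _).1 y).2 hy), h2 (((h _ _).1 z).2 hz), add_zero]
    | smul c y hy h1 => rw [map_smul, LinearMap.smul_apply, h1 (((h _ _).1 y).2 hy), smul_zero]

/-- **Perfectness of the cup product pairings.** -/
theorem perfect {d : ℤ} (hT : IsHomology T) (h : TB T X) {D : CupData T X d} (hD : IsCup D)
    (a b : ℤ) : IsPerfect (D.cup a b) := by
  choose φ hφ using hD.bilin
  choose ψ hψ using hD.bilinE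
  let D' : CupDataL T X d := ⟨φ, ψ⟩
  have hD' : IsCupL D' :=
    { left := fun a b e he => hD.left a b e fun e' => by rw [hψ]; exact he e'
      right := fun a b e' he => hD.right a b e' fun e => by rw [hψ]; exact he e
      frob := fun a b e e' => by
        have h1 := hD.frob a b e e'
        rw [hψ, hψ] at h1
        exact h1
      reg := fun a b x y => by
        have h1 := hD.reg a b x y
        rw [hψ, hφ] at h1
        exact h1 }
  exact ⟨φ a b, hφ a b, perfectL hT h hD' a b⟩

end

end Pool.Agent.X303.TBDual
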