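import Pool.Agent.X303.ZetaDefs
import Pool.Agent.X303.TBDual
import Pool.Agent.H868R3.Pole

/-!
# Zeta functions of smooth projective schemes over a finite field: the orders of the poles
-/

set_option autoImplicit false

namespace Pool.Agent.X303.TBDual

open Pool.Agent.W495.FM Module

noncomputable section

/-- The rank of the first group modulo the left kernel of the pairing `f` (modulo numerical
equivalence, if `f` is given by intersection numbers) is `r`. -/
def HasNumericalRank {M N : Type} [AddCommGroup M] [Module ℚ M] [AddCommGroup N] [Module ℚ N]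
    (f : M → N → ℚ) (r : ℕ) : Prop :=
  ∃ φ : M →ₗ[ℚ] N →ₗ[ℚ] ℚ, (∀ x y, f x y = φ x y) ∧
    FiniteDimensional ℚ (LinearMap.range φ) ∧ finrank ℚ (LinearMap.range φ) = r

section det

variable {W : Type} [AddCommGroup W] [Module ℂ W] [FiniteDimensional ℂ W]

theorem pow_card_mul (t : ℂ) (ht : t ≠ 0) (S : Multiset ℂ) :
    t ^ S.card * (S.map fun α => t⁻¹ - α).prod = (S.map fun α => 1 - t * α).prod := by
  induction S using Multiset.induction_on with
  | empty => simp
  | cons a S ih =>
    rw [Multiset.card_cons, Multiset.map_cons, Multiset.map_cons, Multiset.prod_cons,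
      Multiset.prod_cons, ← ih, pow_succ]
    have h1 : t * (t⁻¹ - a) = 1 - t * a := by
      rw [mul_sub, mul_inv_cancel₀ ht]
    rw [← h1]
    ring

theorem det_one_sub_eq (f : W →ₗ[ℂ] W) {t : ℂ} (ht : t ≠ 0) :
    LinearMap.det (1 - t • f) = (f.charpoly.roots.map fun α => 1 - t * α).prod := by
  have h1 : (1 : W →ₗ[ℂ] W) - t • f = t • (algebraMap ℂ (W →ₗ[ℂ] W) t⁻¹ - f) := by
    rw [smul_sub, Algebra.algebraMap_eq_smul_one, smul_smul, mul_inv_cancel₀ ht, one_smul]
  have hsplit : f.charpoly = (f.charpoly.roots.map fun α => Polynomial.X - Polynomial.C α).prod :=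
    ((IsAlgClosed.splits f.charpoly).eq_prod_roots_of_monic f.charpoly_monic)
  have hcard : f.charpoly.roots.card = finrank ℂ W := by
    rw [← f.charpoly_natDegree]
    exact (IsAlgClosed.splits f.charpoly).natDegree_eq_card_roots.symm
  rw [h1, LinearMap.det_smul, ← LinearMap.eval_charpoly]
  have h2 : f.charpoly.eval t⁻¹ = (f.charpoly.roots.map fun α => t⁻¹ - α).prod := by
    conv_lhs => rw [hsplit]
    rw [Polynomial.eval_multiset_prod, Multiset.map_map]
    congr 1
    refine Multiset.map_congr rfl fun α _ => ?_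
    simp
  rw [h2, ← hcard, pow_card_mul t ht]

theorem order_multiset (q : ℝ) (hq : 1 < q) (n : ℕ) (S : Multiset ℂ) :
    MeromorphicAt (fun s : ℂ => (S.map fun α => 1 - (q : ℂ) ^ (-s) * α).prod) (n : ℂ) ∧
    meromorphicOrderAt (fun s : ℂ => (S.map fun α => 1 - (q : ℂ) ^ (-s) * α).prod) (n : ℂ) =
      ((S.count ((q : ℂ) ^ n) : ℤ) : WithTop ℤ) := by
  classical
  have hq0 : (q : ℂ) ≠ 0 := by exact_mod_cast (by linarith : q ≠ 0)
  induction S using Multiset.induction_on with
  | empty =>
    simp only [Multiset.map_zero, Multiset.prod_zero, Multiset.count_zero]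
    refine ⟨MeromorphicAt.const 1 _, ?_⟩
    rw [meromorphicOrderAt_const, if_neg one_ne_zero]
    rfl
  | cons a S ih =>
    have hd : Differentiable ℂ (fun s : ℂ => 1 - (q : ℂ) ^ (-s) * a) := by
      intro s
      have h1 : HasDerivAt (fun s : ℂ => (q : ℂ) ^ (-s))
          ((q : ℂ) ^ (-s) * Complex.log q * (-1)) s :=
        HasDerivAt.const_cpow (hasDerivAt_neg s) (Or.inl hq0)
      exact ((h1.mul_const a).const_sub 1).differentiableAt
    have hm : MeromorphicAt (fun s : ℂ => 1 - (q : ℂ) ^ (-s) * a) (n : ℂ) :=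
      (hd.analyticAt _).meromorphicAt
    simp only [Multiset.map_cons, Multiset.prod_cons]
    refine ⟨hm.fun_mul ih.1, ?_⟩
    rw [fun_meromorphicOrderAt_mul hm ih.1, ih.2, Pool.Agent.H868R3.TwoOdd.order_factor q hq n a,
      Multiset.count_cons]
    by_cases h : a = (q : ℂ) ^ n
    · rw [if_pos h, if_pos h.symm]
      push_cast
      rw [add_comm]
    · rw [if_neg h, if_neg (Ne.symm h)]
      simp

theorem order_det (q : ℝ) (hq : 1 < q) (n : ℕ) (f : W →ₗ[ℂ] W) :
    MeromorphicAt (fun s : ℂ => LinearMap.det (1 - (q : ℂ) ^ (-s) • f)) (n : ℂ) ∧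
    meromorphicOrderAt (fun s : ℂ => LinearMap.det (1 - (q : ℂ) ^ (-s) • f)) (n : ℂ) =
      ((finrank ℂ (Module.End.maxGenEigenspace f ((q : ℂ) ^ n)) : ℤ) : WithTop ℤ) := by
  have hq0 : (q : ℂ) ≠ 0 := by exact_mod_cast (by linarith : q ≠ 0)
  have h1 : (fun s : ℂ => LinearMap.det (1 - (q : ℂ) ^ (-s) • f)) =
      fun s : ℂ => (f.charpoly.roots.map fun α => 1 - (q : ℂ) ^ (-s) * α).prod := by
    funext s
    exact det_one_sub_eq f (by simp [Complex.cpow_eq_zero_iff, hq0])
  rw [h1, LinearMap.finrank_maxGenEigenspace_eq, ← Polynomial.count_roots]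
  exact order_multiset q hq n _

theorem maxGen_eq_ker (f : W →ₗ[ℂ] W) (c : ℂ)
    (h : ∀ x, (f - c • (1 : W →ₗ[ℂ] W)) ((f - c • (1 : W →ₗ[ℂ] W)) x) = 0 →
      (f - c • (1 : W →ₗ[ℂ] W)) x = 0) :
    Module.End.maxGenEigenspace f c = LinearMap.ker (f - c • (1 : W →ₗ[ℂ] W)) := by
  ext m
  rw [Module.End.mem_maxGenEigenspace, LinearMap.mem_ker]
  constructor
  · rintro ⟨k, hk⟩
    have key : ∀ (k : ℕ) (m : W), ((f - c • (1 : W →ₗ[ℂ] W)) ^ k) m = 0 →
        (f - c • (1 : W →ₗ[ℂ] W)) m = 0 := by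
      intro k
      induction k with
      | zero =>
        intro m hm
        have h1 : m = 0 := by simpa using hm
        rw [h1, map_zero]
      | succ k ih =>
        intro m hm
        rw [pow_succ, Module.End.mul_apply] at hm
        exact h m (ih _ hm)
    exact key k m hk
  · intro hm
    exact ⟨1, by rw [pow_one]; exact hm⟩

end det

section main

variable {V : Type} {T : Homology ℂ V} {X : V}

/-- The dimension of the space of the Frobenius invariants. -/
theorem finrank_invariants {Ω : Type} [Field Ω] [CharZero Ω] {T : Homology Ω V} (hT : IsHomology T)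
    (h : TB T X) (a b : ℤ) (I : Submodule Ω (T.E X a b)) (hI : ∀ e, e ∈ I ↔ T.frob X a b e = e) :
    finrank Ω I = finrank ℚ (T.M X a b) := by
  have hfin := finite_M hT h a b
  let B := Module.finBasis ℚ (T.M X a b)
  have h1 : LinearIndependent Ω fun k => T.reg X a b (B k) := (h a b).2.1 _ _ B.linearIndependent
  have hadd := hT.add X a b
  have hreg : ∀ (c : ℚ) x, T.reg X a b (c • x) = (c : Ω) • T.reg X a b x := by
    let f : T.M X a b →+ T.E X a b := AddMonoidHom.mk' (T.reg X a b) hadd
    have hmod : Module ℚ (T.E X a b) := Module.compHom _ (algebraMap ℚ Ω)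
    intro c x
    have h2 := map_rat_smul f c x
    rw [show f (c • x) = T.reg X a b (c • x) from rfl, show f x = T.reg X a b x from rfl] at h2
    rw [h2]
    exact (Rat.cast_smul_eq_qsmul Ω c _).symm
  have hspan : I = Submodule.span Ω (Set.range fun k => T.reg X a b (B k)) := by
    have h2 : I = Submodule.span Ω (Set.range (T.reg X a b)) := by
      ext e
      rw [hI, (h a b).1]
    rw [h2]
    apply le_antisymm
    · rw [Submodule.span_le]
      rintro _ ⟨x, rfl⟩
      let f : T.M X a b →+ T.E X a b := AddMonoidHom.mk' (T.reg X a b) hadd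
      have h3 : T.reg X a b x = ∑ k, ((B.repr x k : ℚ) : Ω) • T.reg X a b (B k) := by
        conv_lhs => rw [← B.sum_repr x]
        change f (∑ k, B.repr x k • B k) = _
        rw [map_sum]
        exact Finset.sum_congr rfl fun k _ => hreg _ _
      rw [SetLike.mem_coe, h3]
      exact Submodule.sum_mem _ fun k _ => Submodule.smul_mem _ _ (Submodule.subset_span ⟨k, rfl⟩)
    · rw [Submodule.span_le]
      rintro _ ⟨k, rfl⟩
      exact Submodule.subset_span ⟨_, rfl⟩
  rw [hspan, finrank_span_eq_card h1, Fintype.card_fin]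

/-- The multiplicity of the eigenvalue `c` of the untwisted Frobenius. -/
theorem finrank_maxGen {T : Homology ℂ V} {X : V} (hT : IsHomology T) (h : TB T X) (a b : ℤ)
    {W : Type} [AddCommGroup W] [Module ℂ W] [FiniteDimensional ℂ W] (F : W →ₗ[ℂ] W) {c : ℂ}
    (hc : c ≠ 0) (β : T.E X a b → W) (hβl : IsLin ℂ β) (hbij : Function.Bijective β)
    (hβ : ∀ e, β (T.frob X a b e) = c⁻¹ • F (β e)) :
    finrank ℂ (Module.End.maxGenEigenspace F c) = finrank ℚ (T.M X a b) := by
  obtain ⟨β', hβ'⟩ := hβl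
  obtain ⟨φ, hφ⟩ := hT.lin X a b
  have hb : Function.Bijective β' := by
    have : (β' : _ → _) = β := funext fun x => (hβ' x).symm
    rw [this]
    exact hbij
  let B := LinearEquiv.ofBijective β' hb
  have hF : ∀ e, F (B e) = c • B (φ e) := by
    intro e
    have h1 := hβ e
    rw [hβ', hβ', hφ] at h1
    change F (β' e) = c • β' (φ e)
    rw [h1, smul_smul, mul_inv_cancel₀ hc, one_smul]
  have hN : ∀ e, (F - c • (1 : W →ₗ[ℂ] W)) (B e) = c • B (φ e - e) := by
    intro e
    rw [LinearMap.sub_apply, hF, map_sub, smul_sub]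
    rfl
  rw [maxGen_eq_ker]
  · let I : Submodule ℂ (T.E X a b) := LinearMap.eqLocus φ LinearMap.id
    have hI : ∀ e, e ∈ I ↔ T.frob X a b e = e := by
      intro e
      rw [LinearMap.mem_eqLocus, hφ]
      rfl
    rw [← finrank_invariants hT h _ _ I hI]
    have h1 : LinearMap.ker (F - c • (1 : W →ₗ[ℂ] W)) = I.map (B : _ →ₗ[ℂ] _) := by
      ext x
      rw [LinearMap.mem_ker, Submodule.mem_map]
      obtain ⟨e, rfl⟩ := B.surjective x
      rw [hN, smul_eq_zero, B.map_eq_zero_iff, sub_eq_zero]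
      constructor
      · rintro (h2 | h2)
        · exact absurd h2 hc
        · exact ⟨e, h2, rfl⟩
      · rintro ⟨e', h2, h3⟩
        right
        have h4 : e' = e := B.injective h3
        rw [← h4]
        exact h2
    rw [h1]
    exact LinearEquiv.finrank_map_eq B I
  · intro x hx
    obtain ⟨e, rfl⟩ := B.surjective x
    rw [hN] at hx ⊢
    rw [map_smul, hN, smul_smul, smul_eq_zero, B.map_eq_zero_iff] at hx
    have h2 : φ (φ e - e) = φ e - e := by
      rcases hx with hx | hx
      · exact absurd hx (mul_ne_zero hc hc)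
      · exact sub_eq_zero.1 hx
    have h3 := (h a b).2.2 e (by rw [hφ, hφ]; exact h2)
    rw [hφ] at h3
    rw [h3, sub_self, map_zero, smul_zero]

theorem zeta_pole (hT : IsHomology T) (h : TB T X) {d q : ℕ} (hq : 1 < q) {C : FrobCoh}
    (hC : IsCohOf T X d q C) {D : CupData T X d} (hD : IsCup D) (n : ℕ) :
    ∃ r : ℕ, HasNumericalRank (D.cup (2 * (d - n)) (d - n)) r ∧
      meromorphicOrderAt (C.zeta q (2 * d)) (n : ℂ) = ((-(r : ℤ) : ℤ) : WithTop ℤ) := by
  have hfin := finite_M hT h (2 * ((d : ℤ) - n)) (d - n)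
  refine ⟨finrank ℚ (T.M X (2 * ((d : ℤ) - n)) (d - n)), ?_, ?_⟩
  · obtain ⟨φ, hφ, hp⟩ := perfect hT h hD (2 * ((d : ℤ) - n)) (d - n)
    refine ⟨φ, hφ, inferInstance, ?_⟩
    exact LinearMap.finrank_range_of_inj hp.bijective_left.1
  · have hqR : (1 : ℝ) < (q : ℝ) := by exact_mod_cast hq
    have hq0 : (q : ℂ) ≠ 0 := by exact_mod_cast (by omega : q ≠ 0)
    have hqn : ((q : ℂ) ^ n) ≠ 0 := pow_ne_zero _ hq0
    have hfinC := hC.finite
    -- the orders of the factors
    have hdet : ∀ j : ℕ, MeromorphicAt (fun s : ℂ =>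
        (LinearMap.det (1 - (q : ℂ) ^ (-s) • C.F j)) ^ ((-1 : ℤ) ^ (j + 1))) (n : ℂ) ∧
        meromorphicOrderAt (fun s : ℂ =>
        (LinearMap.det (1 - (q : ℂ) ^ (-s) • C.F j)) ^ ((-1 : ℤ) ^ (j + 1))) (n : ℂ) =
        (((-1 : ℤ) ^ (j + 1) * finrank ℂ
          (Module.End.maxGenEigenspace (C.F j) ((q : ℂ) ^ n)) : ℤ) : WithTop ℤ) := by
      intro j
      obtain ⟨h1, h2⟩ := order_det (q : ℝ) hqR n (C.F j)
      rw [Complex.ofReal_natCast] at h1 h2
      refine ⟨h1.fun_zpow _, ?_⟩
      rw [fun_meromorphicOrderAt_zpow h1, h2]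
      rfl
    have hzero : ∀ j : ℕ, j ≠ 2 * n →
        finrank ℂ (Module.End.maxGenEigenspace (C.F j) ((q : ℂ) ^ n)) = 0 := by
      intro j hj
      have h0 : ∀ x, (C.F j - ((q : ℂ) ^ n) • (1 : C.H j →ₗ[ℂ] C.H j)) x = 0 → x = 0 := by
        intro x hx
        by_contra hx0
        have h1 : C.F j x = ((q : ℂ) ^ n) • x := by
          rw [LinearMap.sub_apply, sub_eq_zero] at hx
          rw [hx]
          rfl
        have h2 := hC.weil j _ x hx0 h1
        rw [norm_pow, Complex.norm_natCast, ← pow_mul, mul_comm n 2] at h2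
        exact hj (pow_right_injective₀ (by linarith) (by linarith) h2.symm)
      rw [maxGen_eq_ker _ _ fun x hx => by rw [h0 _ hx], Submodule.finrank_eq_zero]
      exact (Submodule.eq_bot_iff _).2 fun x hx => h0 x hx
    have hmain : finrank ℂ (Module.End.maxGenEigenspace (C.F (2 * n)) ((q : ℂ) ^ n)) =
        finrank ℚ (T.M X (2 * ((d : ℤ) - n)) (d - n)) := by
      obtain ⟨β, hβl, hbij, hβ⟩ := hC.twist n
      exact finrank_maxGen hT h _ _ (C.F (2 * n)) hqn β hβl hbij hβ
    unfold FrobCoh.zeta detFun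
    rw [meromorphicOrderAt_fun_prod (fun j _ => (hdet j).1),
      Finset.sum_congr rfl (fun j _ => (hdet j).2), ← WithTop.coe_sum]
    congr 1
    rw [← hmain]
    by_cases hn : 2 * n ∈ Finset.range (2 * d + 1)
    · rw [Finset.sum_eq_single_of_mem (2 * n) hn]
      · rw [pow_succ, pow_mul]
        simp
      · intro j _ hj
        rw [hzero j hj]
        simp
    · have h1 : finrank ℂ (Module.End.maxGenEigenspace (C.F (2 * n)) ((q : ℂ) ^ n)) = 0 := by
        rw [Submodule.finrank_eq_zero]
        refine (Submodule.eq_bot_iff _).2 fun x _ => hC.vanish (2 * n) ?_ x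
        rw [Finset.mem_range] at hn
        omega
      rw [h1, Finset.sum_eq_zero]
      · simp
      · intro j hj
        have hj2 : j ≠ 2 * n := fun h => hn (h ▸ hj)
        rw [hzero j hj2]
        simp

/-- The multiplicity of the eigenvalue `c` of the Frobenius on the dual space. -/
theorem finrank_maxGen_dual {T : Homology ℂ V} {X : V} (hT : IsHomology T) (h : TB T X) (a b : ℤ)
    {W : Type} [AddCommGroup W] [Module ℂ W] [FiniteDimensional ℂ W] (F : W →ₗ[ℂ] W)
    (hF : Function.Injective F) {c : ℂ} (hc : c ≠ 0) (P : T.E X a b → W → ℂ)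
    (hP : IsBilin ℂ P) (hl : ∀ e, (∀ w, P e w = 0) → e = 0) (hr : ∀ w, (∀ e, P e w = 0) → w = 0)
    (hPF : ∀ e w, P (T.frob X a b e) (F w) = c * P e w) :
    finrank ℂ (Module.End.maxGenEigenspace F c) = finrank ℚ (T.M X a b) := by
  obtain ⟨ψ, hψ⟩ := hP
  obtain ⟨φ, hφ⟩ := hT.lin X a b
  have hE := hT.finite X a b
  have hperf : ψ.IsPerfPair := by
    refine LinearMap.IsPerfPair.of_injective ?_ ?_
    · rw [injective_iff_map_eq_zero]
      intro e he
      exact hl e fun w => by rw [hψ, he, LinearMap.zero_apply]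
    · rw [injective_iff_map_eq_zero]
      intro w hw
      exact hr w fun e => by rw [hψ, ← LinearMap.flip_apply, hw, LinearMap.zero_apply]
  -- the Frobenius on the dual space
  let B : T.E X a b ≃ₗ[ℂ] Module.Dual ℂ W := LinearEquiv.ofBijective ψ hperf.bijective_left
  have hB : ∀ e, F.dualMap (B (φ e)) = c • B e := by
    intro e
    ext w
    have h1 := hPF e w
    rw [hψ, hψ, hφ] at h1
    exact h1
  have hFd : Function.Injective F.dualMap :=
    LinearMap.dualMap_injective_of_surjective (LinearMap.injective_iff_surjective.1 hF)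
  let N : W →ₗ[ℂ] W := F - c • (1 : W →ₗ[ℂ] W)
  have hN : ∀ e, N.dualMap (B e) = F.dualMap (B (e - φ e)) := by
    intro e
    rw [map_sub, map_sub, hB]
    ext w
    simp [N]
  have hker : ∀ e, N.dualMap (B e) = 0 ↔ T.frob X a b e = e := by
    intro e
    rw [hN, map_eq_zero_iff _ hFd, B.map_eq_zero_iff, sub_eq_zero, hφ]
    exact eq_comm
  have hN2 : ∀ e, N.dualMap (N.dualMap (B e)) = 0 → N.dualMap (B e) = 0 := by
    intro e he
    rw [hker]
    have h1 : N.dualMap (N.dualMap (B e)) = F.dualMap (F.dualMap (B ((e - φ e) - φ (e - φ e)))) := by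
      rw [hN]
      have h2 : N.dualMap (F.dualMap (B (e - φ e))) = F.dualMap (N.dualMap (B (e - φ e))) := by
        ext w
        simp [N]
      rw [h2, hN]
    rw [h1, map_eq_zero_iff _ hFd, map_eq_zero_iff _ hFd, B.map_eq_zero_iff, sub_eq_zero] at he
    have h3 : φ (φ e - e) = φ e - e := by
      rw [← neg_sub e (φ e), map_neg, ← he]
    exact (h a b).2.2 e (by rw [hφ, hφ]; exact h3)
  -- dimensions of kernels
  have hdual : ∀ G : W →ₗ[ℂ] W, finrank ℂ (LinearMap.ker G.dualMap) = finrank ℂ (LinearMap.ker G) := by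
    intro G
    have h1 := LinearMap.finrank_range_add_finrank_ker G
    have h2 := LinearMap.finrank_range_add_finrank_ker G.dualMap
    rw [LinearMap.finrank_range_dualMap_eq_finrank_range, Subspace.dual_finrank_eq] at h2
    omega
  have hkk : LinearMap.ker N = LinearMap.ker (N ∘ₗ N) := by
    apply Submodule.eq_of_le_of_finrank_eq
    · intro w hw
      rw [LinearMap.mem_ker] at hw ⊢
      rw [LinearMap.comp_apply, hw, map_zero]
    · rw [← hdual, ← hdual]
      have : LinearMap.ker N.dualMap = LinearMap.ker (N ∘ₗ N).dualMap := by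
        ext f
        obtain ⟨e, rfl⟩ := B.surjective f
        rw [LinearMap.mem_ker, LinearMap.mem_ker]
        have h4 : (N ∘ₗ N).dualMap (B e) = N.dualMap (N.dualMap (B e)) := rfl
        rw [h4]
        exact ⟨fun h5 => by rw [h5, map_zero], hN2 e⟩
      rw [this]
  rw [maxGen_eq_ker F c fun x hx => by
    have h5 : x ∈ LinearMap.ker (N ∘ₗ N) := hx
    rw [← hkk] at h5
    exact h5]
  change finrank ℂ (LinearMap.ker N) = _
  rw [← hdual]
  let I : Submodule ℂ (T.E X a b) := LinearMap.eqLocus φ LinearMap.id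
  have hI : ∀ e, e ∈ I ↔ T.frob X a b e = e := by
    intro e
    rw [LinearMap.mem_eqLocus, hφ]
    rfl
  rw [← finrank_invariants hT h _ _ I hI]
  have h1 : LinearMap.ker N.dualMap = I.map (B : _ →ₗ[ℂ] _) := by
    ext f
    rw [Submodule.mem_map]
    obtain ⟨e, rfl⟩ := B.surjective f
    rw [LinearMap.mem_ker, hker]
    constructor
    · intro h2
      exact ⟨e, (hI e).2 h2, rfl⟩
    · rintro ⟨e', h2, h3⟩
      have h4 : e' = e := B.injective h3
      rw [← h4]
      exact (hI e').1 h2
  rw [h1]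
  exact LinearEquiv.finrank_map_eq B I

end main

end

end Pool.Agent.X303.TBDual
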