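import Pool.Agent.X303.PoleDefs
import Pool.Agent.X303.RegDefs
import Pool.Agent.X303.Zeta

/-!
# `L`-functions of schemes over a finite field in one degree
-/

set_option autoImplicit false

namespace Pool.Agent.X303.TBDual

open Pool.Agent.W495.FM Module

variable {V : Type} {T : Homology ℂ V} {X : V}

theorem order_lfun {W : Type} [AddCommGroup W] [Module ℂ W] [FiniteDimensional ℂ W]
    (F : W →ₗ[ℂ] W) {q : ℕ} (hq : 1 < q) (n : ℕ) :
    meromorphicOrderAt (lfun q F) (n : ℂ) =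
      ((-(finrank ℂ (Module.End.maxGenEigenspace F ((q : ℂ) ^ n)) : ℤ) : ℤ) : WithTop ℤ) := by
  have hqR : (1 : ℝ) < (q : ℝ) := by exact_mod_cast hq
  obtain ⟨h1, h2⟩ := order_det (q : ℝ) hqR n F
  rw [Complex.ofReal_natCast] at h1 h2
  have h3 : lfun q F = (fun s : ℂ => LinearMap.det (1 - (q : ℂ) ^ (-s) • F))⁻¹ := by
    funext s
    rfl
  rw [h3, meromorphicOrderAt_inv, h2]
  rfl

theorem pole_smooth (hT : IsHomology T) (h : TB T X) {d n q : ℕ} (hq : 1 < q) {W : Type}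
    [AddCommGroup W] [Module ℂ W] (F : W →ₗ[ℂ] W) (hW : IsCohomologyOf T X d n q F) :
    meromorphicOrderAt (lfun q F) (n : ℂ) =
      ((-(finrank ℚ (T.M X (2 * (d - n)) (d - n)) : ℤ) : ℤ) : WithTop ℤ) := by
  obtain ⟨hfin, β, h1, h2, h3⟩ := hW
  have hq0 : (q : ℂ) ≠ 0 := by exact_mod_cast (by omega : q ≠ 0)
  rw [order_lfun F hq n, finrank_maxGen hT h _ _ F (pow_ne_zero n hq0) β h1 h2 h3]

theorem pole_compact (hT : IsHomology T) (h : TB T X) {i q : ℕ} (hq : 1 < q) {W : Type}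
    [AddCommGroup W] [Module ℂ W] (F : W →ₗ[ℂ] W) (P : T.E X (2 * i) i → W → ℂ)
    (hW : IsCompactOf T X i q F P) :
    meromorphicOrderAt (lfun q F) (i : ℂ) =
      ((-(finrank ℚ (T.M X (2 * i) i) : ℤ) : ℤ) : WithTop ℤ) := by
  have hfin := hW.finite
  have hq0 : (q : ℂ) ≠ 0 := by exact_mod_cast (by omega : q ≠ 0)
  rw [order_lfun F hq i, finrank_maxGen_dual hT h _ _ F hW.injective (pow_ne_zero i hq0) P
    hW.bilin hW.left hW.right hW.frob]

theorem reg_injective (h : TB T X) {a b : ℤ} (hT : IsHomology T) {x y : T.M X a b}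
    (hxy : T.reg X a b x = T.reg X a b y) : x = y := by
  by_contra hne
  have h1 : x - y ≠ 0 := sub_ne_zero.2 hne
  apply reg_ne_zero h h1
  let r : T.M X a b →+ T.E X a b := AddMonoidHom.mk' _ (hT.add X a b)
  have h2 : r (x - y) = r x - r y := map_sub r x y
  change r (x - y) = 0
  rw [h2]
  exact sub_eq_zero.2 hxy

end Pool.Agent.X303.TBDual
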