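import Pool.Agent.X303.TorsDefs

/-!
# Algebraic K-theory of schemes over a finite field and of dg categories
-/

set_option autoImplicit false

namespace Pool.Agent.X303.TBDual

open Pool.Agent.W495.FM

variable {Ω V : Type} [Field Ω]

/-- The groups `K m = K'_m(X)` are the `K`-groups of the coherent sheaves on the scheme `X` (the
`K`-groups of the vector bundles if `X` is smooth): up to torsion they embed into the sum of the groups
`H_(m + 2 j)^M(X, ℚ(j)) = CH_j(X, m) ⊗ ℚ`. -/
def IsKTheory (T : Homology Ω V) (X : V) (K : ℤ → Type) [∀ m, AddCommGroup (K m)] : Prop :=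
  ∀ m : ℤ, ∃ f : ∀ j : ℤ, K m → T.M X (m + 2 * j) j, IsInjectiveUpToTorsion f

/-- Data of the `K`-groups `K A m` of the dg categories `A : 𝒟`, with the dg categories `perf X` of
the perfect complexes on the schemes `X : V`. -/
structure DGTheory (V 𝒟 : Type) where
  K : 𝒟 → ℤ → Type
  [grp : ∀ A m, AddCommGroup (K A m)]
  perf : V → 𝒟

attribute [instance] DGTheory.grp

/-- The noncommutative motive of `A`, with rational coefficients, is a direct summand of the sum of the
noncommutative motives of the dg categories `B l`: up to torsion, the `K`-groups of `A` embed into the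
sums of the ones of the `B l`. -/
def IsNCSummand {𝒟 : Type} (N : DGTheory V 𝒟) {I : Type} (A : 𝒟) (B : I → 𝒟) : Prop :=
  ∀ m : ℤ, ∃ f : ∀ l : I, N.K A m → N.K (B l) m, IsInjectiveUpToTorsion f

/-- The smallest class of dg categories that contains the categories `perf X` of the schemes `X` with the
property `S` and all dg categories whose noncommutative motives are direct summands of finite sums of
noncommutative motives of members. -/
inductive NCGenerated {𝒟 : Type} (N : DGTheory V 𝒟) (S : V → Prop) : 𝒟 → Prop
  | perf (X : V) (h : S X) : NCGenerated N S (N.perf X)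
  | summand {I : Type} [Fintype I] (A : 𝒟) (B : I → 𝒟) (h : IsNCSummand N A B)
      (hB : ∀ l, NCGenerated N S (B l)) : NCGenerated N S A

end Pool.Agent.X303.TBDual
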