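import Pool.Agent.X303.TBDual
import Pool.Agent.X303.KDefs

/-!
# Algebraic K-theory of schemes over a finite field and of dg categories: theorems
-/

set_option autoImplicit false

namespace Pool.Agent.X303.TBDual

open Pool.Agent.W495.FM

variable {Ω V : Type} [Field Ω] [CharZero Ω] {T : Homology Ω V} {X : V}

/-- Additive maps preserve multiples. -/
theorem isAdd_nsmul {A B : Type} [AddCommGroup A] [AddCommGroup B] {f : A → B} (hf : IsAdd f)
    (n : ℕ) (x : A) : f (n • x) = n • f x := by
  have h0 : f 0 = 0 := by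
    have h1 := hf 0 0
    rw [add_zero] at h1
    exact left_eq_add.1 h1
  induction n with
  | zero => rw [zero_smul, zero_smul, h0]
  | succ n ih => rw [succ_nsmul, succ_nsmul, hf, ih]

/-- Parshin's conjecture for the `K`-groups. -/
theorem parshin_K (hT : IsHomology T) (h : TB T X) (hX : IsPure T X) {K : ℤ → Type}
    [∀ m, AddCommGroup (K m)] (hK : IsKTheory T X K) {m : ℤ} (hm : m ≠ 0) (x : K m) :
    IsOfFinAddOrder x := by
  obtain ⟨f, -, h0⟩ := hK m
  exact h0 x fun j => parshin hT h hX (by omega) (f j x)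

/-- An element with torsion images under jointly injective (up to torsion) maps is torsion. -/
theorem IsInjectiveUpToTorsion.torsion {J K : Type} [Fintype J] {L : J → Type} [AddCommGroup K]
    [∀ j, AddCommGroup (L j)] {f : ∀ j, K → L j} (h : IsInjectiveUpToTorsion f) {x : K}
    (hx : ∀ j, IsOfFinAddOrder (f j x)) : IsOfFinAddOrder x := by
  obtain ⟨hf, h0⟩ := h
  simp only [isOfFinAddOrder_iff_nsmul_eq_zero] at hx h0 ⊢
  choose n hn hn' using hx
  obtain ⟨k, hk, hk'⟩ := h0 ((∏ l, n l) • x) fun l => by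
    rw [isAdd_nsmul (hf l)]
    obtain ⟨c, hc⟩ := Finset.dvd_prod_of_mem n (Finset.mem_univ l)
    rw [hc, mul_comm, mul_smul, hn', smul_zero]
  refine ⟨k * ∏ l, n l, Nat.mul_pos hk (Finset.prod_pos fun l _ => hn l), ?_⟩
  rw [mul_smul, hk']

/-- Torsion passes to direct summands. -/
theorem torsion_generated {𝒟 : Type} {N : DGTheory V 𝒟} {S : V → Prop} {m : ℤ}
    (hS : ∀ X, S X → ∀ x : N.K (N.perf X) m, IsOfFinAddOrder x) {A : 𝒟}
    (hA : NCGenerated N S A) (x : N.K A m) : IsOfFinAddOrder x := by
  induction hA with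
  | perf X h => exact hS X h x
  | summand A B h hB ih =>
    obtain ⟨f, hf⟩ := h m
    exact hf.torsion fun l => ih l (f l x)

end Pool.Agent.X303.TBDual
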