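import Pool.Agent.X303.InterDefs
import Pool.Agent.X303.Zeta

/-!
# Intersection numbers on smooth projective schemes over a finite field
-/

set_option autoImplicit false

namespace Pool.Agent.X303.TBDual

open Pool.Agent.W495.FM Module

variable {Ω V : Type} [Field Ω] [CharZero Ω] {T : Homology Ω V} {X : V} {a b a' b' : ℤ}
  {f : T.M X a b → T.M X a' b' → ℚ} {g : T.E X a b → T.E X a' b' → Ω}

theorem inter_invariant (hT : IsHomology T) (hI : IsIntersection T X f g)
    {e : T.E X a b} (he : T.frob X a b e = e)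
    (hss : ∀ e : T.E X a' b', T.frob X _ _ (T.frob X _ _ e - e) = T.frob X _ _ e - e →
      T.frob X _ _ e = e)
    (h0 : ∀ e' : T.E X a' b', T.frob X _ _ e' = e' → g e e' = 0) : e = 0 := by
  obtain ⟨ψ, hψ⟩ := hI.bilinE
  have hE := hT.finite X a' b'
  obtain ⟨φ, hφ⟩ := hT.lin X a' b'
  apply hI.left
  intro e'
  set N : T.E X a' b' →ₗ[Ω] T.E X a' b' := φ - LinearMap.id with hN
  have hdis : Disjoint (LinearMap.ker N) (LinearMap.range N) := by
    rw [Submodule.disjoint_def]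
    rintro z hz ⟨w, rfl⟩
    have h1 : N w = φ w - w := rfl
    rw [h1] at hz ⊢
    have h2 : φ (φ w - w) = φ w - w := by
      have h3 : N (φ w - w) = 0 := hz
      have h4 : N (φ w - w) = φ (φ w - w) - (φ w - w) := rfl
      rw [h4] at h3
      exact sub_eq_zero.1 h3
    have h5 := hss w (by rw [hφ, hφ]; exact h2)
    rw [hφ] at h5
    rw [h5, sub_self]
  have hsup : LinearMap.ker N ⊔ LinearMap.range N = ⊤ := by
    apply Submodule.eq_top_of_finrank_eq
    have h1 := Submodule.finrank_sup_add_finrank_inf_eq (LinearMap.ker N) (LinearMap.range N)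
    rw [hdis.eq_bot, finrank_bot, add_zero] at h1
    have h2 := LinearMap.finrank_range_add_finrank_ker N
    omega
  have hmem : e' ∈ LinearMap.ker N ⊔ LinearMap.range N := by
    rw [hsup]
    trivial
  obtain ⟨y, hy, z, ⟨w, rfl⟩, rfl⟩ := Submodule.mem_sup.1 hmem
  rw [hψ, map_add]
  have hy' : T.frob X _ _ y = y := by
    rw [hφ]
    have h4 : N y = φ y - y := rfl
    rw [LinearMap.mem_ker, h4] at hy
    exact sub_eq_zero.1 hy
  have h0' := h0 y hy'
  rw [hψ] at h0'
  rw [h0', zero_add]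
  have h4 : N w = φ w - w := rfl
  rw [h4, map_sub]
  have h5 := hI.frob e w
  rw [he, hφ, hψ, hψ] at h5
  rw [h5, sub_self]

/-- Numerically trivial cycles are trivial. -/
theorem inter_zero (hT : IsHomology T) (h : TB T X) (hI : IsIntersection T X f g) {z : T.M X a b}
    (hz : ∀ w, f z w = 0) : z = 0 := by
  obtain ⟨ψ, hψ⟩ := hI.bilinE
  by_contra hx0
  refine reg_ne_zero h hx0 (inter_invariant hT hI (hT.frob_reg X a b z) (h _ _).2.2 ?_)
  intro e' he'
  have h1 := ((h _ _).1 e').1 he'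
  rw [hψ]
  induction h1 using Submodule.span_induction with
  | mem u hu =>
    obtain ⟨y, rfl⟩ := hu
    rw [← hψ, hI.reg, hz]
    simp
  | zero => rw [map_zero]
  | add y z hy hz h1 h2 =>
    rw [map_add, h1 (((h _ _).1 y).2 hy), h2 (((h _ _).1 z).2 hz), add_zero]
  | smul c y hy h1 => rw [map_smul, h1 (((h _ _).1 y).2 hy), smul_zero]

/-- **The orders of the poles of the zeta function.** -/
theorem zeta_order {T : Homology ℂ V} {X : V} (hT : IsHomology T) (h : TB T X) {d q : ℕ}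
    (hq : 1 < q) {C : FrobCoh} (hC : IsCohOf T X d q C) (n : ℕ) :
    FiniteDimensional ℚ (T.M X (2 * (d - n)) (d - n)) ∧
      meromorphicOrderAt (C.zeta q (2 * d)) (n : ℂ) =
        ((-(finrank ℚ (T.M X (2 * (d - n)) (d - n)) : ℤ) : ℤ) : WithTop ℤ) := by
  refine ⟨finite_M hT h _ _, ?_⟩
  have hqR : (1 : ℝ) < (q : ℝ) := by exact_mod_cast hq
  have hq0 : (q : ℂ) ≠ 0 := by exact_mod_cast (by omega : q ≠ 0)
  have hqn : ((q : ℂ) ^ n) ≠ 0 := pow_ne_zero _ hq0
  have hfinC := hC.finite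
  have hdet : ∀ j : ℕ, MeromorphicAt (fun s : ℂ =>
      (LinearMap.det (1 - (q : ℂ) ^ (-s) • C.F j)) ^ ((-1 : ℤ) ^ (j + 1))) (n : ℂ) ∧
      meromorphicOrderAt (fun s : ℂ =>
      (LinearMap.det (1 - (q : ℂ) ^ (-s) • C.F j)) ^ ((-1 : ℤ) ^ (j + 1))) (n : ℂ) =
      (((-1 : ℤ) ^ (j + 1) * finrank ℂ
        (Module.End.maxGenEigenspace (C.F j) ((q : ℂ) ^ n)) : ℤ) : WithTop ℤ) := by
    intro j
    obtain ⟨h1, h2⟩ := order_det (q : ℝ) hqR n (C.F j)
    rw [Complex.ofReal_natCast] at h1 h2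
    refine ⟨h1.fun_zpow _, ?_⟩
    rw [fun_meromorphicOrderAt_zpow h1, h2]
    rfl
  have hzero : ∀ j : ℕ, j ≠ 2 * n →
      finrank ℂ (Module.End.maxGenEigenspace (C.F j) ((q : ℂ) ^ n)) = 0 := by
    intro j hj
    have h0 : ∀ x, (C.F j - ((q : ℂ) ^ n) • (1 : C.H j →ₗ[ℂ] C.H j)) x = 0 → x = 0 := by
      intro x hx
      by_contra hx0
      have h1 : C.F j x = ((q : ℂ) ^ n) • x := by
        rw [LinearMap.sub_apply, sub_eq_zero] at hx
        rw [hx]
        rfl
      have h2 := hC.weil j _ x hx0 h1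
      rw [norm_pow, Complex.norm_natCast, ← pow_mul, mul_comm n 2] at h2
      exact hj (pow_right_injective₀ (by linarith) (by linarith) h2.symm)
    rw [maxGen_eq_ker _ _ fun x hx => by rw [h0 _ hx], Submodule.finrank_eq_zero]
    exact (Submodule.eq_bot_iff _).2 fun x hx => h0 x hx
  have hmain : finrank ℂ (Module.End.maxGenEigenspace (C.F (2 * n)) ((q : ℂ) ^ n)) =
      finrank ℚ (T.M X (2 * ((d : ℤ) - n)) (d - n)) := by
    obtain ⟨β, hβl, hbij, hβ⟩ := hC.twist n
    exact finrank_maxGen hT h _ _ (C.F (2 * n)) hqn β hβl hbij hβ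
  unfold FrobCoh.zeta detFun
  rw [meromorphicOrderAt_fun_prod (fun j _ => (hdet j).1),
    Finset.sum_congr rfl (fun j _ => (hdet j).2), ← WithTop.coe_sum]
  congr 1
  rw [← hmain]
  by_cases hn : 2 * n ∈ Finset.range (2 * d + 1)
  · rw [Finset.sum_eq_single_of_mem (2 * n) hn]
    · rw [pow_succ, pow_mul]
      simp
    · intro j _ hj
      rw [hzero j hj]
      simp
  · have h1 : finrank ℂ (Module.End.maxGenEigenspace (C.F (2 * n)) ((q : ℂ) ^ n)) = 0 := by
      rw [Submodule.finrank_eq_zero]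
      refine (Submodule.eq_bot_iff _).2 fun x _ => hC.vanish (2 * n) ?_ x
      rw [Finset.mem_range] at hn
      omega
    rw [h1, Finset.sum_eq_zero]
    · simp
    · intro j hj
      have hj2 : j ≠ 2 * n := fun h => hn (h ▸ hj)
      rw [hzero j hj2]
      simp

end Pool.Agent.X303.TBDual
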