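import Pool.Agent.X303.EigDefs
import Pool.Agent.X303.RegDefs
import Pool.Agent.X303.TBDual

/-!
# The cohomology of smooth projective schemes over a finite field in even degrees
-/

set_option autoImplicit false

namespace Pool.Agent.X303.TBDual

open Pool.Agent.W495.FM Module

variable {Ω V : Type} [Field Ω] [CharZero Ω] {T : Homology Ω V} {X : V}

/-- The eigenspace of the Frobenius for `q ^ n` is the space of the algebraic classes. -/
theorem eigenspace_eq (h : TB T X) {d n q : ℕ} (hq : 0 < q) {W : Type} [AddCommGroup W]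
    [Module Ω W] (F : W →ₗ[Ω] W) (β : T.E X (2 * (d - n)) (d - n) → W)
    (hβ : IsTwist T X d n q F β) (x : W) :
    F x = (q : Ω) ^ n • x ↔ x ∈ algebraicClasses T X d n β := by
  have hqn : ((q : Ω) ^ n) ≠ 0 := pow_ne_zero _ (by exact_mod_cast hq.ne')
  obtain ⟨B, hB⟩ := hβ.lin
  obtain ⟨e, rfl⟩ := hβ.bijective.2 x
  have hspan : algebraicClasses T X d n β =
      (Submodule.span Ω (Set.range (T.reg X (2 * (d - n)) (d - n)))).map B := by
    unfold algebraicClasses
    rw [Submodule.map_span, ← Set.range_comp]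
    congr 2
    funext z
    exact hB _
  have hinj : Function.Injective B := by
    have : (B : _ → _) = β := funext fun x => (hB x).symm
    rw [this]
    exact hβ.bijective.1
  have h1 : (β e ∈ algebraicClasses T X d n β) ↔
      e ∈ Submodule.span Ω (Set.range (T.reg X (2 * (d - n)) (d - n))) := by
    rw [hspan, hB, Submodule.mem_map]
    exact ⟨fun ⟨y, hy, hy'⟩ => hinj hy' ▸ hy, fun hy => ⟨e, hy, rfl⟩⟩
  rw [h1, ← (h _ _).1]
  have h2 := hβ.frob e
  constructor
  · intro h3
    rw [h3, smul_smul, inv_mul_cancel₀ hqn, one_smul] at h2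
    exact hβ.bijective.1 h2
  · intro h3
    rw [h3] at h2
    conv_rhs => rw [h2]
    rw [smul_smul, mul_inv_cancel₀ hqn, one_smul]

/-- The eigenvalue `q ^ n` of the Frobenius is semisimple. -/
theorem eigenvalue_semisimple (hT : IsHomology T) (h : TB T X) {d n q : ℕ} (hq : 0 < q) {W : Type}
    [AddCommGroup W] [Module Ω W] (F : W →ₗ[Ω] W) (β : T.E X (2 * (d - n)) (d - n) → W)
    (hβ : IsTwist T X d n q F β) (x : W)
    (hx : F (F x - (q : Ω) ^ n • x) = (q : Ω) ^ n • (F x - (q : Ω) ^ n • x)) :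
    F x = (q : Ω) ^ n • x := by
  have hqn : ((q : Ω) ^ n) ≠ 0 := pow_ne_zero _ (by exact_mod_cast hq.ne')
  obtain ⟨B, hB⟩ := hβ.lin
  obtain ⟨φ, hφ⟩ := hT.lin X (2 * ((d : ℤ) - n)) (d - n)
  obtain ⟨e, rfl⟩ := hβ.bijective.2 x
  have hF : ∀ e, F (β e) = (q : Ω) ^ n • β (T.frob X _ _ e) := by
    intro e
    rw [hβ.frob, smul_smul, mul_inv_cancel₀ hqn, one_smul]
  have hsub : ∀ a b, β a - β b = β (a - b) := by
    intro a b
    rw [hB, hB, hB, map_sub]
  have hsmul : ∀ (c : Ω) a, c • β a = β (c • a) := by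
    intro c a
    rw [hB, hB, map_smul]
  rw [hF, ← smul_sub, hsub, map_smul, hF] at hx
  rw [hF]
  congr 1
  have h1 : β (T.frob X _ _ (T.frob X _ _ e - e)) = β (T.frob X _ _ e - e) := by
    have h2 := hx
    rw [smul_smul, smul_smul] at h2
    exact smul_right_injective _ (mul_ne_zero hqn hqn) h2
  have h2 := (h _ _).2.2 e (hβ.bijective.1 h1)
  rw [h2]

end Pool.Agent.X303.TBDual
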