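import Pool.Agent.X303.NCDefs
import Pool.Agent.X303.KThms

/-!
# Noncommutative motives over a finite field: the conjectures of Beilinson and Tate
-/

set_option autoImplicit false

namespace Pool.Agent.X303.TBDual

open Pool.Agent.W495.FM

variable {Ω V 𝒟 : Type} [Field Ω] [CharZero Ω] {T : Homology Ω V} {X : V}

/-- The kernel of the Euler pairing of a scheme. -/
theorem euler_X {d : ℤ} {D : CupData T X d} (hD : ∀ a b : ℤ, IsPerfect (D.cup a b)) {K0 : Type}
    [AddCommGroup K0] {χ : K0 → K0 → ℤ} (hχ : IsRiemannRoch D χ) (x : K0)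
    (hx : ∀ y, χ x y = 0) : IsOfFinAddOrder x := by
  obtain ⟨J, u, v, ⟨hu, h0⟩, hv, h⟩ := hχ
  refine h0 x fun n => ?_
  obtain ⟨φ, hφ, hp⟩ := hD (2 * n) n
  have h1 : φ (u n x) = 0 := by
    refine LinearMap.ext_on (hv n) ?_
    rintro _ ⟨y, rfl, hy⟩
    have h2 := h x y
    rw [hx y, Finset.sum_eq_single n] at h2
    · rw [← hφ, ← h2, LinearMap.zero_apply, Int.cast_zero]
    · intro m _ hm
      obtain ⟨ψ, hψ, -⟩ := hD (2 * m) m
      rw [hψ, hy m hm, map_zero]
    · intro hn
      exact absurd (Finset.mem_univ n) hn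
  exact hp.bijective_left.1 (by rw [h1, map_zero])

/-- The noncommutative conjecture of Beilinson passes to direct summands. -/
theorem euler_generated {N : EulerTheory V 𝒟} {S : V → Prop}
    (hS : ∀ X, S X → ∀ x : N.K0 (N.perf X), (∀ y, N.χ _ x y = 0) → IsOfFinAddOrder x)
    {A : 𝒟} (hA : EulerGenerated N S A) (x : N.K0 A) (hx : ∀ y, N.χ A x y = 0) :
    IsOfFinAddOrder x := by
  induction hA with
  | perf X h => exact hS X h x hx
  | summand A B h hB ih =>
    obtain ⟨f, g, hf, hfg⟩ := h
    exact hf.torsion fun l => ih l (f l x) fun y => by rw [hfg]; exact hx _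

/-- The noncommutative conjecture of Tate passes to direct summands. -/
theorem thomason_generated {N : ThomasonTheory V 𝒟} (hN : IsTateModule N) {S : V → Prop} {n : ℕ}
    (hS : ∀ X, S X → ∀ x : N.G (N.perf X) n, x = 0) {A : 𝒟} (hA : ThomasonGenerated N S A)
    (x : N.G A n) : x = 0 := by
  induction hA with
  | perf X h => exact hS X h x
  | summand A B h hB ih =>
    obtain ⟨f, hf, h0⟩ := h n
    exact hN A n x (h0 x fun l => ih l (f l x))

theorem TB.tate (h : TB T X) : TateFor T X := fun i e he => ((h (2 * i) i).1 e).1 he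

end Pool.Agent.X303.TBDual
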