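import Pool.Agent.X303.BassDefs
import Pool.Agent.X303.TBDual

/-!
# The rational part of the finite generation conjecture of Bass
-/

set_option autoImplicit false

namespace Pool.Agent.X303.TBDual

open Pool.Agent.W495.FM Module

variable {Ω V : Type} [Field Ω] [CharZero Ω] {T : Homology Ω V} {X : V}

theorem finrank_M_le (hT : IsHomology T) (h : TB T X) (i j : ℤ) :
    finrank ℚ (T.M X i j) ≤ invariantRank T X i j := by
  have hfin := finite_M hT h i j
  have hE := hT.finite X i j
  let b := Module.finBasis ℚ (T.M X i j)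
  have hsub : {r : ℕ | 0 < r ∧ ∃ e : Fin r → T.E X i j, LinearIndependent Ω e ∧
      ∀ k, T.frob X i j (e k) = e k} ⊆ (Finset.Icc 0 (finrank Ω (T.E X i j)) : Set ℕ) := by
    rintro r ⟨-, e, he, -⟩
    have h1 := he.fintype_card_le_finrank
    rw [Fintype.card_fin] at h1
    simpa using h1
  have hsup : (Finset.Icc 1 (finrank ℚ (T.M X i j)) : Set ℕ) ⊆
      {r : ℕ | 0 < r ∧ ∃ e : Fin r → T.E X i j, LinearIndependent Ω e ∧
        ∀ k, T.frob X i j (e k) = e k} := by
    intro r hr
    rw [Finset.coe_Icc, Set.mem_Icc] at hr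
    refine ⟨hr.1, fun k => T.reg X i j (b (Fin.castLE hr.2 k)), ?_, fun k => hT.frob_reg X i j _⟩
    refine (h i j).2.1 r (fun k => b (Fin.castLE hr.2 k)) ?_
    exact b.linearIndependent.comp _ (Fin.castLE_injective hr.2)
  have h2 := Set.ncard_le_ncard hsup ((Finset.finite_toSet _).subset hsub)
  rw [Set.ncard_coe_finset, Nat.card_Icc, Nat.add_sub_cancel] at h2
  exact h2

/-- The `K`-groups have finite rank. -/
theorem bass_rational (hT : IsHomology T) (h : TB T X) {J : ℤ → Finset ℤ} {K : ℤ → Type}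
    [∀ m, AddCommGroup (K m)] (hK : IsBoundedKTheory T X J K) (m : ℤ) (r : ℕ)
    (x : Fin r → K m) (hx : ∀ a : Fin r → ℤ, ∑ k, a k • x k = 0 → a = 0) :
    r ≤ ∑ j ∈ J m, invariantRank T X (m + 2 * j) j := by
  classical
  obtain ⟨f, hf, h0⟩ := hK m
  have hfin : ∀ j : J m, FiniteDimensional ℚ (T.M X (m + 2 * j) j) := fun j => finite_M hT h _ _
  choose g hg using fun j : J m => (show ∃ g : K m →+ T.M X (m + 2 * j) j, ∀ y, f j y = g y from
    ⟨AddMonoidHom.mk' (f j) (hf j), fun _ => rfl⟩)
  let F : K m →+ (∀ j : J m, T.M X (m + 2 * j) j) := AddMonoidHom.mk' (fun y j => g j y)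
    (fun y z => by funext j; exact map_add (g j) y z)
  have hF : ∀ y, F y = 0 → ∃ n : ℕ, 0 < n ∧ n • y = 0 := by
    intro y hy
    exact isOfFinAddOrder_iff_nsmul_eq_zero.1 (h0 y fun j => by rw [hg]; exact congrFun hy j)
  have hli : LinearIndependent ℤ fun k => F (x k) := by
    rw [Fintype.linearIndependent_iff]
    intro a ha k
    have h1 : F (∑ k, a k • x k) = 0 := by
      rw [map_sum, ← ha]
      exact Finset.sum_congr rfl fun k _ => map_zsmul F (a k) (x k)
    obtain ⟨n, hn, hn'⟩ := hF _ h1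
    have h2 := hx (fun k => (n : ℤ) * a k) (by
      rw [← hn', Finset.smul_sum]
      exact Finset.sum_congr rfl fun k _ => by rw [mul_smul, natCast_zsmul])
    have h3 := congrFun h2 k
    simp only [Pi.zero_apply, mul_eq_zero] at h3
    rcases h3 with h3 | h3
    · exact absurd h3 (by exact_mod_cast hn.ne')
    · exact h3
  have hlq : LinearIndependent ℚ fun k => F (x k) :=
    (LinearIndependent.iff_fractionRing ℤ ℚ).1 hli
  have h4 := hlq.fintype_card_le_finrank
  rw [Fintype.card_fin, Module.finrank_pi_fintype] at h4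
  refine h4.trans ?_
  rw [← Finset.sum_coe_sort (J m)]
  exact Finset.sum_le_sum fun j _ => finrank_M_le hT h _ _

end Pool.Agent.X303.TBDual
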