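import Pool.Agent.X303.TorsDefs

/-!
# The rational part of the finite generation conjecture of Bass: definitions
-/

set_option autoImplicit false

namespace Pool.Agent.X303.TBDual

open Pool.Agent.W495.FM

variable {Ω V : Type} [Field Ω]

/-- The groups `K m = K'_m(X)` are the `K`-groups of the coherent sheaves on the scheme `X`: up to
torsion they embed into the finite sum of the groups `H_(m + 2 j)^M(X, ℚ(j)) = CH_j(X, m) ⊗ ℚ`, where
`j` runs through the finite set `J m` (`-m ≤ j ≤ dim X`; the other groups are zero). -/
def IsBoundedKTheory (T : Homology Ω V) (X : V) (J : ℤ → Finset ℤ) (K : ℤ → Type)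
    [∀ m, AddCommGroup (K m)] : Prop :=
  ∀ m : ℤ, ∃ f : ∀ j : J m, K m → T.M X (m + 2 * j) j, IsInjectiveUpToTorsion f

/-- The dimension of the space of the elements of `E X i j` that are invariant under the Frobenius: the
largest number of linearly independent invariant elements. -/
noncomputable def invariantRank (T : Homology Ω V) (X : V) (i j : ℤ) : ℕ :=
  Set.ncard {r : ℕ | 0 < r ∧ ∃ e : Fin r → T.E X i j, LinearIndependent Ω e ∧
    ∀ k, T.frob X i j (e k) = e k}

end Pool.Agent.X303.TBDual
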