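import Pool.Agent.W495.FM.HomDefs

/-!
# Smooth projective schemes over a finite field: cup products

For a smooth projective scheme `X` of pure dimension `d` over a finite field, `H_a(X, ℚ(b))` is
`H^(2 d - a)(X, ℚ(d - b))`, for motivic and for `ℓ`-adic cohomology.
-/

set_option autoImplicit false

namespace Pool.Agent.X303.TBDual

open Pool.Agent.W495.FM

variable {Ω V : Type} [Field Ω]

/-- Data of cup products, followed by the degree: the pairings of `M X a b = H^(2 d - a)(X, ℚ(d - b))`
with `M X (2 d - a) (d - b) = H^a(X, ℚ(b))`, and the ones in `ℓ`-adic cohomology. -/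
structure CupData (T : Homology Ω V) (X : V) (d : ℤ) where
  /-- the pairing in motivic cohomology -/
  cup : ∀ a b : ℤ, T.M X a b → T.M X (2 * d - a) (d - b) → ℚ
  /-- the pairing in `ℓ`-adic cohomology over the algebraic closure -/
  cupE : ∀ a b : ℤ, T.E X a b → T.E X (2 * d - a) (d - b) → Ω

/-- The properties of the cup products on a smooth projective scheme `X` of pure dimension `d`:
Poincaré duality for `ℓ`-adic cohomology, invariance under the Frobenius, and the compatibility of
the regulator with cup products and degrees. -/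
structure IsCup {T : Homology Ω V} {X : V} {d : ℤ} (D : CupData T X d) : Prop where
  bilin : ∀ a b, IsBilin ℚ (D.cup a b)
  bilinE : ∀ a b, IsBilin Ω (D.cupE a b)
  left : ∀ a b e, (∀ e', D.cupE a b e e' = 0) → e = 0
  right : ∀ a b e', (∀ e, D.cupE a b e e' = 0) → e' = 0
  frob : ∀ a b e e', D.cupE a b (T.frob X a b e) (T.frob X _ _ e') = D.cupE a b e e'
  reg : ∀ a b x y, D.cupE a b (T.reg X a b x) (T.reg X _ _ y) = (D.cup a b x y : Ω)

/-- The function `f` is a perfect bilinear pairing of vector spaces over `ℚ`. -/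
def IsPerfect {M N : Type} [AddCommGroup M] [Module ℚ M] [AddCommGroup N] [Module ℚ N]
    (f : M → N → ℚ) : Prop :=
  ∃ φ : M →ₗ[ℚ] N →ₗ[ℚ] ℚ, (∀ x y, f x y = φ x y) ∧ φ.IsPerfPair

end Pool.Agent.X303.TBDual
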