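import Pool.Agent.W495.FM.HomDefs

/-!
# The cohomology of smooth projective schemes over a finite field in even degrees
-/

set_option autoImplicit false

namespace Pool.Agent.X303.TBDual

open Pool.Agent.W495.FM

variable {Ω V : Type} [Field Ω]

/-- The space `W` with the Frobenius endomorphism `F` is the cohomology group `H^(2 n)(X, ℚ_ℓ)` (with
coefficients extended to `Ω`) of the smooth projective scheme `X` of pure dimension `d` over the field
with `q` elements: `β` is the isomorphism of `H_(2 (d - n))(X, ℚ_ℓ(d - n)) = H^(2 n)(X, ℚ_ℓ(n))` with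
it, and the Frobenius on the former space is `q ^ (-n)` times the one of `H^(2 n)(X, ℚ_ℓ)`. -/
structure IsTwist (T : Homology Ω V) (X : V) (d n q : ℕ) {W : Type} [AddCommGroup W] [Module Ω W]
    (F : W →ₗ[Ω] W) (β : T.E X (2 * (d - n)) (d - n) → W) : Prop where
  lin : IsLin Ω β
  bijective : Function.Bijective β
  frob : ∀ e, β (T.frob X _ _ e) = ((q : Ω) ^ n)⁻¹ • F (β e)

/-- The space of the classes of the algebraic cycles of codimension `n`. -/
def algebraicClasses (T : Homology Ω V) (X : V) (d n : ℕ) {W : Type} [AddCommGroup W] [Module Ω W]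
    (β : T.E X (2 * (d - n)) (d - n) → W) : Submodule Ω W :=
  Submodule.span Ω (Set.range fun z : T.M X (2 * (d - n)) (d - n) => β (T.reg X _ _ z))

end Pool.Agent.X303.TBDual
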