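import Pool.Agent.X303.FiveDefs
import Pool.Agent.Y137.GN.Main

/-!
# Abelian varieties of dimension at most five and products of elliptic curves and abelian surfaces
-/

set_option autoImplicit false

namespace Pool.Agent.X303.TBDual

open Pool.Agent.W495.TA Pool.Agent.W495.FM Pool.Agent.Y137.GN Pool.Agent.Y137.SF
  Pool.Agent.Y137.HS Module

variable {p : ℕ} [Fact p.Prime] {ν : PadicAlgCl p ≃+* ℂ} {Ω : Type} [Field Ω] [IsAlgClosed Ω]
  [CharZero Ω] {V : Type} {T : Homology Ω V}

theorem tb_five (hT : IsHomology T) {X : V} (hX : Generated T (IsFiveOrSurfaces p ν T) X) :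
    TB T X := by
  refine tb_generated hT (fun X hX => ?_) hX
  obtain ⟨Y, C, M, g, hY, hC, hM, hX⟩ := hX
  refine tb_goodS (p := p) (ν := ν) hT (Generated.base X ⟨Y, C, M, g, ?_, hC, hM, hX⟩)
  rcases hY with hY | hY
  · exact Or.inl hY
  · exact Or.inr ⟨Y, SmallFactors.of_le hY, isPowers_self Y⟩

end Pool.Agent.X303.TBDual
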