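import Pool.Agent.Y137.GN.Defs

/-!
# Abelian varieties of dimension at most five and products of elliptic curves and abelian surfaces
-/

set_option autoImplicit false

namespace Pool.Agent.X303.TBDual

open Pool.Agent.W495.TA Pool.Agent.W495.FM Pool.Agent.Y137.GN Module

/-- The groups of motivic and of `ℓ`-adic homology of `X` are those of an abelian variety `Y` over a
finite field which has dimension at most five, or which is (over an algebraic closure, up to isogeny) a
product of elliptic curves and abelian surfaces. -/
def IsFiveOrSurfaces {Ω V : Type} [Field Ω] [CharZero Ω] (p : ℕ) [Fact p.Prime]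
    (ν : PadicAlgCl p ≃+* ℂ) (T : Homology Ω V) (X : V) : Prop :=
  ∃ (Y : RedAV p ν) (C : Cycles Ω Y) (M : Motivic C) (g : ℕ),
    (finrank ℚ Y.X.H1 ≤ 10 ∨ ∀ i, finrank ℚ (Y.X.factor i).E ≤ 4) ∧ IsChowS C ∧ IsMotivic M ∧
      IsAbelian T X M g

end Pool.Agent.X303.TBDual
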