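import Pool.Agent.W495.FM.HomDefs

/-!
# Intersection numbers on smooth projective schemes over a finite field
-/

set_option autoImplicit false

namespace Pool.Agent.X303.TBDual

open Pool.Agent.W495.FM

variable {Ω V : Type} [Field Ω]

/-- The function `f` is the intersection pairing, followed by the degree, of the groups of cycles of
complementary dimensions `M X a b` and `M X a' b'` on the smooth projective scheme `X`: it is
compatible with the pairing `g` in `ℓ`-adic cohomology, which is invariant under the Frobenius and for
which Poincaré duality holds. -/
structure IsIntersection (T : Homology Ω V) (X : V) {a b a' b' : ℤ}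
    (f : T.M X a b → T.M X a' b' → ℚ) (g : T.E X a b → T.E X a' b' → Ω) : Prop where
  bilin : IsBilin ℚ f
  bilinE : IsBilin Ω g
  left : ∀ e, (∀ e', g e e' = 0) → e = 0
  right : ∀ e', (∀ e, g e e' = 0) → e' = 0
  frob : ∀ e e', g (T.frob X a b e) (T.frob X a' b' e') = g e e'
  reg : ∀ x y, g (T.reg X a b x) (T.reg X a' b' y) = (f x y : Ω)

end Pool.Agent.X303.TBDual
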