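import Pool.Agent.X303.TorsDefs
import Pool.Agent.X303.CupDefs

/-!
# Noncommutative motives over a finite field: the conjecture of Beilinson, definitions
-/

set_option autoImplicit false

namespace Pool.Agent.X303.TBDual

open Pool.Agent.W495.FM

variable {Ω V 𝒟 : Type} [Field Ω]

/-- Data of the Grothendieck groups `K0 A` with the Euler pairings `χ A` of the smooth proper dg
categories `A : 𝒟`, with the dg categories `perf X` of the perfect complexes on schemes `X : V`. -/
structure EulerTheory (V 𝒟 : Type) where
  K0 : 𝒟 → Type
  [grp : ∀ A, AddCommGroup (K0 A)]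
  χ : ∀ A, K0 A → K0 A → ℤ
  perf : V → 𝒟

attribute [instance] EulerTheory.grp

/-- The noncommutative motive of `A`, with rational coefficients, is a direct summand of the sum of the
ones of the dg categories `B l`: there are homomorphisms `f l`, given by differences of perfect
bimodules, with the common kernel a torsion group, and they have right adjoints `g l`. -/
def IsEulerSummand (N : EulerTheory V 𝒟) {I : Type} (A : 𝒟) (B : I → 𝒟) : Prop :=
  ∃ (f : ∀ l : I, N.K0 A → N.K0 (B l)) (g : ∀ l : I, N.K0 (B l) → N.K0 A),
    IsInjectiveUpToTorsion f ∧ ∀ l x y, N.χ (B l) (f l x) y = N.χ A x (g l y)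

/-- The smallest class of dg categories that contains the categories `perf X` of the schemes `X` with the
property `S` and all dg categories whose noncommutative motives are direct summands of finite sums of
noncommutative motives of members. -/
inductive EulerGenerated (N : EulerTheory V 𝒟) (S : V → Prop) : 𝒟 → Prop
  | perf (X : V) (h : S X) : EulerGenerated N S (N.perf X)
  | summand {I : Type} [Fintype I] (A : 𝒟) (B : I → 𝒟) (h : IsEulerSummand N A B)
      (hB : ∀ l, EulerGenerated N S (B l)) : EulerGenerated N S A

/-- The Chern character and the theorem of Hirzebruch, Riemann and Roch for the smooth projective scheme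
`X` of pure dimension `d`: the components `u n x` of the Chern character of the dual of `x` in
`M X (2 n) n = CH^(d - n)(X) ⊗ ℚ`, and the components `v n y` of `ch(y) td(X)` in
`M X (2 d - 2 n) (d - n) = CH^n(X) ⊗ ℚ`, for `0 ≤ n ≤ d` (`n ∈ J`). As both maps are isomorphisms from
`K0 ⊗ ℚ` to the sum of the Chow groups, the components `v n y` of the elements `y` with `v m y = 0` for
all `m ≠ n` span `CH^n(X) ⊗ ℚ`. -/
def IsRiemannRoch {T : Homology Ω V} {X : V} {d : ℤ} (D : CupData T X d) {K0 : Type}
    [AddCommGroup K0] (χ : K0 → K0 → ℤ) : Prop :=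
  ∃ (J : Finset ℤ) (u : ∀ n : J, K0 → T.M X (2 * n) n)
    (v : ∀ n : J, K0 → T.M X (2 * d - 2 * n) (d - n)),
    IsInjectiveUpToTorsion u ∧
    (∀ n : J, Submodule.span ℚ {z | ∃ y, v n y = z ∧ ∀ m, m ≠ n → v m y = 0} = ⊤) ∧
    ∀ x y, (χ x y : ℚ) = ∑ n : J, D.cup (2 * n) n (u n x) (v n y)

end Pool.Agent.X303.TBDual
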