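import Pool.Agent.X303.TorsDefs

/-!
# Noncommutative motives over a finite field: the conjecture of Tate, definitions
-/

set_option autoImplicit false

namespace Pool.Agent.X303.TBDual

open Pool.Agent.W495.FM

variable {Ω V 𝒟 : Type} [Field Ω]

/-- Data of the groups `G A n = Hom (ℤ(l^∞), π₋₁ L_KU K(A ⊗ 𝔽_(q^n)))` of the dg categories
`A : 𝒟`, with the dg categories `perf X` of the perfect complexes on schemes `X : V`. -/
structure ThomasonTheory (V 𝒟 : Type) where
  G : 𝒟 → ℕ → Type
  [grp : ∀ A n, AddCommGroup (G A n)]
  perf : V → 𝒟

attribute [instance] ThomasonTheory.grp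

/-- The groups `G A n` are torsion-free (as they are Tate modules). -/
def IsTateModule (N : ThomasonTheory V 𝒟) : Prop :=
  ∀ A n (x : N.G A n), IsOfFinAddOrder x → x = 0

/-- The noncommutative motive of `A`, with rational coefficients, is a direct summand of the sum of the
ones of the dg categories `B l`: up to torsion the groups `G A n` embed into the sums of the groups
`G (B l) n`. -/
def IsThomasonSummand (N : ThomasonTheory V 𝒟) {I : Type} (A : 𝒟) (B : I → 𝒟) : Prop :=
  ∀ n : ℕ, ∃ f : ∀ l : I, N.G A n → N.G (B l) n, IsInjectiveUpToTorsion f

/-- The smallest class of dg categories that contains the categories `perf X` of the schemes `X` with the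
property `S` and all dg categories whose noncommutative motives are direct summands of finite sums of
noncommutative motives of members. -/
inductive ThomasonGenerated (N : ThomasonTheory V 𝒟) (S : V → Prop) : 𝒟 → Prop
  | perf (X : V) (h : S X) : ThomasonGenerated N S (N.perf X)
  | summand {I : Type} [Fintype I] (A : 𝒟) (B : I → 𝒟) (h : IsThomasonSummand N A B)
      (hB : ∀ l, ThomasonGenerated N S (B l)) : ThomasonGenerated N S A

/-- The conjecture of Tate for `X` in all codimensions: each Frobenius invariant element of
`H_(2 i)(X, ℚ_ℓ(i)) ⊗ Ω` is a linear combination of classes of elements of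
`H_(2 i)^M(X, ℚ(i)) = CH_i(X) ⊗ ℚ`. -/
def TateFor (T : Homology Ω V) (X : V) : Prop :=
  ∀ (i : ℤ) (e : T.E X (2 * i) i), T.frob X (2 * i) i e = e →
    e ∈ Submodule.span Ω (Set.range (T.reg X (2 * i) i))

/-- The theorem of Thomason for the scheme `X` (where `T n` is the homology of the schemes over the
extension of degree `n` of the ground field obtained by base change): the Tate conjecture for `X` over
all finite extensions of the ground field implies the vanishing of the groups `G (perf X) n`. -/
def IsThomason (N : ThomasonTheory V 𝒟) (T : ℕ → Homology Ω V) (X : V) : Prop :=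
  (∀ n : ℕ, 1 ≤ n → TateFor (T n) X) → ∀ n : ℕ, 1 ≤ n → ∀ x : N.G (N.perf X) n, x = 0

end Pool.Agent.X303.TBDual
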