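import Pool.Agent.X303.NCBeilinsonDefs
import Pool.Agent.X303.NCTateDefs

/-!
# Noncommutative motives over a finite field: the conjectures of Beilinson and Tate, definitions
-/
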