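import Pool.Agent.W495.FM.HomDefs

/-!
# `L`-functions of schemes over a finite field in one degree
-/

set_option autoImplicit false

namespace Pool.Agent.X303.TBDual

open Pool.Agent.W495.FM Module

noncomputable section

variable {V : Type}

/-- The function `det (1 - q ^ (-s) F)⁻¹`. -/
def lfun (q : ℕ) {W : Type} [AddCommGroup W] [Module ℂ W] (F : W →ₗ[ℂ] W) (s : ℂ) : ℂ :=
  (LinearMap.det (1 - (q : ℂ) ^ (-s) • F))⁻¹

/-- The space `W` with the Frobenius endomorphism `F` is the cohomology group `H^(2 n)(X, ℚ_ℓ)` (with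
coefficients extended to `ℂ`) of the smooth scheme `X` of pure dimension `d` over the field with `q`
elements: `β` is the isomorphism of `H_(2 (d - n))(X, ℚ_ℓ(d - n)) = H^(2 n)(X, ℚ_ℓ(n))` with it, and the
Frobenius on the former space is `q ^ (-n)` times the one of `H^(2 n)(X, ℚ_ℓ)`. -/
def IsCohomologyOf (T : Homology ℂ V) (X : V) (d n q : ℕ) {W : Type} [AddCommGroup W] [Module ℂ W]
    (F : W →ₗ[ℂ] W) : Prop :=
  FiniteDimensional ℂ W ∧ ∃ β : T.E X (2 * (d - n)) (d - n) → W, IsLin ℂ β ∧
    Function.Bijective β ∧ ∀ e, β (T.frob X _ _ e) = ((q : ℂ) ^ n)⁻¹ • F (β e)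

/-- The space `W` with the Frobenius endomorphism `F` is the cohomology group with compact supports
`H_c^(2 i)(X, ℚ_ℓ)` (with coefficients extended to `ℂ`) of the scheme `X` over the field with `q`
elements: `P` is the perfect pairing with its dual `H_(2 i)(X, ℚ_ℓ(i))`, twisted `i` times. -/
structure IsCompactOf (T : Homology ℂ V) (X : V) (i q : ℕ) {W : Type} [AddCommGroup W]
    [Module ℂ W] (F : W →ₗ[ℂ] W) (P : T.E X (2 * i) i → W → ℂ) : Prop where
  finite : FiniteDimensional ℂ W
  injective : Function.Injective F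
  bilin : IsBilin ℂ P
  left : ∀ e, (∀ w, P e w = 0) → e = 0
  right : ∀ w, (∀ e, P e w = 0) → w = 0
  frob : ∀ e w, P (T.frob X (2 * i) i e) (F w) = (q : ℂ) ^ i * P e w

end

end Pool.Agent.X303.TBDual
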