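import Pool.Agent.W495.FM.HomDefs

/-!
# Smooth projective schemes over a finite field: purity and integral coefficients

For a smooth projective scheme `X` of pure dimension `d` over a finite field, `H_a(X, ℚ(b))` is
`H^(2 d - a)(X, ℚ(d - b))`, for motivic and for `ℓ`-adic cohomology.
-/

set_option autoImplicit false

namespace Pool.Agent.X303.TBDual

open Pool.Agent.W495.FM

variable {Ω V : Type} [Field Ω]

/-- Purity (Deligne): as `X` is smooth and projective, the Frobenius has no eigenvalue one on
`E X a b`, which is pure of weight `2 b - a`, for `a ≠ 2 b`. -/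
def IsPure (T : Homology Ω V) (X : V) : Prop :=
  ∀ a b : ℤ, a ≠ 2 * b → ∀ e : T.E X a b, T.frob X a b e = e → e = 0

/-- The groups `H i n = H^i(X, ℤ(n))` are the motivic cohomology groups of the smooth scheme `X` of pure
dimension `d`: up to torsion they embed into the groups
`H^i(X, ℚ(n)) = H_(2 d - i)^M(X, ℚ(d - n))`. -/
def IsIntegral (T : Homology Ω V) (X : V) (d : ℤ) (H : ℤ → ℤ → Type)
    [∀ i n, AddCommGroup (H i n)] : Prop :=
  ∀ i n : ℤ, ∃ f : H i n → T.M X (2 * d - i) (d - n), IsAdd f ∧
    ∀ x, f x = 0 → ∃ N : ℕ, 0 < N ∧ N • x = 0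

end Pool.Agent.X303.TBDual
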