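import Pool.Agent.X303.PureDefs
import Pool.Agent.X303.CupDefs

/-!
# Smooth projective schemes over a finite field: purity, integral coefficients and cup products
-/
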