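import Pool.Agent.W495.FM.HomDefs

/-!
# Maps that are injective up to torsion
-/

set_option autoImplicit false

namespace Pool.Agent.X303.TBDual

open Pool.Agent.W495.FM

/-- Additive maps `f j` whose common kernel consists of torsion elements. -/
def IsInjectiveUpToTorsion {J K : Type} {L : J → Type} [AddCommGroup K] [∀ j, AddCommGroup (L j)]
    (f : ∀ j, K → L j) : Prop :=
  (∀ j, IsAdd (f j)) ∧ ∀ x, (∀ j, f j x = 0) → IsOfFinAddOrder x

end Pool.Agent.X303.TBDual
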