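import Pool.Agent.W495.FM.HomDefs

/-!
# Zeta functions of smooth projective schemes over a finite field
-/

set_option autoImplicit false

namespace Pool.Agent.X303.TBDual

open Pool.Agent.W495.FM Module

noncomputable section

/-- Data of the cohomology groups `H i = H^i(X)` (with complex coefficients) of a smooth projective
scheme `X` over a finite field, with the Frobenius endomorphism. -/
structure FrobCoh where
  H : ℕ → Type
  [grp : ∀ i, AddCommGroup (H i)]
  [mod : ∀ i, Module ℂ (H i)]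
  F : ∀ i, H i →ₗ[ℂ] H i

attribute [instance] FrobCoh.grp FrobCoh.mod

/-- The function `det (1 - q ^ (-s) F)`. -/
def detFun (q : ℕ) {W : Type} [AddCommGroup W] [Module ℂ W] (F : W →ₗ[ℂ] W) (s : ℂ) : ℂ :=
  LinearMap.det (1 - (q : ℂ) ^ (-s) • F)

/-- The zeta function of `X` (by the formula of Grothendieck): the product of the functions
`det (1 - q ^ (-s) F | H^i(X)) ^ ((-1) ^ (i + 1))`, for `i ≤ b = 2 dim X`. -/
def FrobCoh.zeta (C : FrobCoh) (q b : ℕ) (s : ℂ) : ℂ :=
  ∏ i ∈ Finset.range (b + 1), detFun q (C.F i) s ^ ((-1 : ℤ) ^ (i + 1))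

/-- The groups `C.H i` are the `ℓ`-adic cohomology groups (with coefficients extended to `ℂ`) of the
smooth projective scheme `X` of pure dimension `d` over the field with `q` elements. -/
structure IsCohOf {V : Type} (T : Homology ℂ V) (X : V) (d : ℕ) (q : ℕ) (C : FrobCoh) : Prop where
  finite : ∀ i, FiniteDimensional ℂ (C.H i)
  /-- the groups vanish above the degree `2 d` -/
  vanish : ∀ i, 2 * d < i → ∀ x : C.H i, x = 0
  /-- the conjecture of Weil, proved by Deligne -/
  weil : ∀ (i : ℕ) (α : ℂ) (x : C.H i), x ≠ 0 → C.F i x = α • x → ‖α‖ ^ 2 = (q : ℝ) ^ i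
  /-- `H_(2 (d - n))(X, ℚ_ℓ(d - n)) = H^(2 n)(X, ℚ_ℓ(n))`, where the Frobenius is `q ^ (-n)` times
  the one of `H^(2 n)(X, ℚ_ℓ)` -/
  twist : ∀ n : ℕ, ∃ β : T.E X (2 * (d - n)) (d - n) → C.H (2 * n), IsLin ℂ β ∧
    Function.Bijective β ∧ ∀ e, β (T.frob X _ _ e) = ((q : ℂ) ^ n)⁻¹ • C.F (2 * n) (β e)

end

end Pool.Agent.X303.TBDual
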